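import Pool.Agent.Y121.OV.Main

/-!
# Derived equivalence and the motives of every fourth cohomology group

`C` is a theory with the formal properties of the Chow groups with rational coefficients
(`IsChowProj`), for instance the Chow groups themselves or the groups of motivated cycles of André,
and `H` a Weil cohomology with the formal properties of the Betti cohomology with
rational coefficients of smooth projective varieties over a subfield of the complex numbers: the
forms `h(x, y) = ∫ x ∪ J y`, for the Weil operator `J`, are compatible with correspondences
(`IsWeilForm`), and `X` and `Y` have classes of ample divisors satisfying the hard Lefschetz theorem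
and the Hodge-Riemann relations (`IsAmple`). The varieties `X` and `Y` are derived equivalent: there
are Mukai vectors of the kernel of an equivalence and of its inverse (`IsFM`).

Suppose that numerical and homological equivalence agree on `X × X` (nothing is assumed about `Y`,
and the algebraicity of the Kunneth projectors is not assumed). Then, in any dimension `n`, the
direct sum of the motives `h^(n-2), h^(n-6), h^(n-10), …` modulo homological equivalence, twisted to
have the same weight, is a derived invariant. For motivated cycles the hypothesis is a theorem of
André; so, without hypothesis, the sum of the `H^(n-2-4i)` is a derived invariant of smooth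
projective complex varieties as a rational Hodge structure.

The argument: the algebra of the operators on `H(X) ⊕ H(Y)` induced by correspondences is
semisimple (the argument of Jannsen), and contains the Kunneth projectors. The Mukai form on the
part of the parity of `n` has an isotropic subspace consisting of the classes of degree larger than
`n`, so that its signature, over the semisimple algebra, is that of the middle cohomology, which is
computed by the Hodge-Riemann relations.
-/

open CategoryTheory AlgebraicGeometry

universe u v

namespace Pool.Agent.Results.MP_5c0b30_ag.EveryFourthDegree

open Pool.Agent.H914 Pool.Agent.H914.VarClass Pool.Agent.H914.VarClass.Obj Pool.Agent.W492.BB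
  Pool.Agent.W550.Corr Pool.Agent.TH133 Pool.Agent.Y121.OV

theorem result {k : Type u} [Field k] {𝒱 : VarClass k} (C : TheoryData.{u, v, 0} 𝒱 ℚ)
    [IsChowProj C] (H : WeilTheoryData.{u, v, 0} C ℚ) [IsWeilProj H] (hcomm : IsGradedComm H)
    (h : ∀ X, H.A X → H.A X → ℝ) (hW : IsWeilForm H h) (X Y : 𝒱.Obj)
    [FiniteDimensional ℚ (H.A X)] [FiniteDimensional ℚ (H.A Y)] (ηX : C.A X) (ηY : C.A Y)
    (hX : IsAmple H h X ηX) (hY : IsAmple H h Y ηY) (κX : C.A X) (κY : C.A Y)
    (v : ℕ → C.A (X.prod Y)) (w : C.A (Y.prod X)) (hFM : IsFM C κX κY v w)
    (hD : NumEqHom H (X.prod X)) : IsoFourth H X Y :=
  fourth_iso H hFM hcomm hW hX hY hD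

end Pool.Agent.Results.MP_5c0b30_ag.EveryFourthDegree
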