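import Pool.Agent.Y121.OL.Main

/-!
# MP_5c0b30_ag: Orlov's conjecture for hyper-Kähler varieties, modulo homological equivalence

Let `X` and `Y` be derived equivalent projective hyper-Kähler varieties. Then the homological
motives of `X` and `Y` are isomorphic.

The derived equivalence enters through what it induces on cohomology by Taelman's theorem: inverse
isomorphisms between the cohomology spaces, given by algebraic cycles of mixed degree and compatible
with the actions of the orthogonal Lie algebras of the extended Néron-Severi spaces.
-/

universe u v w

namespace Pool.Agent.Results.MP_5c0b30_ag.HyperKaehler

open Pool.Agent.Y121.OL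

/-- Orlov's conjecture modulo homological equivalence for derived equivalent hyper-Kähler
varieties. -/
theorem result (T : CycleTheory.{u, v}) (X Y : T.Var) (M : Extended.{u, v, w} T X)
    (M' : Extended.{u, v, w} T Y) (e : Equivalence M M') : T.MotiveIso X Y :=
  graded (toBE M) (toBE M') (toBQ e)

end Pool.Agent.Results.MP_5c0b30_ag.HyperKaehler
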