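import Pool.Agent.Y111.OR.HForm

/-!
# Orlov's conjecture: the motive is determined in low degrees

`C` is a theory with the formal properties of the Chow groups with rational coefficients of
smooth projective varieties (`IsChowProj`), `H` a Weil cohomology theory over `C` with rational
coefficients (`IsWeilProj`), such as singular cohomology. Let `X` and `Y` be varieties of
dimension `d`, with classes `v_i ∈ CH^i(X × Y)` having the properties `IsMukaiVector` of the Mukai
vector of an equivalence between the derived categories of `X` and `Y`. Suppose that `X` and `Y`
satisfy hard Lefschetz (`HardLefschetz`), the Lefschetz standard conjecture (`LefschetzConj`)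
and the Hodge-Riemann relations (`HodgeForm.Riemann`) for real-valued forms `S` for which the
transpose of an algebraic correspondence is its adjoint (`HodgeForm`), such as
`S(a, b) = ∫ a J(b)` for the Weil operator `J`, multiplication by `i^(q-p)` on `H^{p,q}`.

* If the homological motives `h^i(X)` and `h^i(Y)` are isomorphic for all `i ≡ e` modulo two with
  `1 ≤ i ≤ d - 3`, then they are isomorphic for all `i ≡ e` modulo two. So no hypothesis on the
  motives is needed for the even degrees if `d ≤ 4`, and only `h^1` is needed for the odd degrees
  if `d = 4` or `d = 5`; by the theorem of Popa and Schnell, this is the case.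
* If the homological motives `h^i(X)` and `h^i(Y)` are isomorphic for `1 ≤ i ≤ d - 3`, then the
  homological motives of `X` and `Y` are isomorphic, by correspondences of degree zero. If moreover
  homologically trivial self-correspondences of `X` and of `Y` of degree zero are nilpotent (as for
  motives which are finite-dimensional in the sense of Kimura), then the Chow motives of `X` and
  `Y` are isomorphic.

The argument: by the Lefschetz standard conjecture and the Hodge-Riemann relations, the algebraic
operators on `H(X) ⊕ H(Y)` form a finite-dimensional algebra with a positive involution, for which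
the Mukai pairing on the part of `H(X)` of the parity of `d` corresponds to a self-adjoint
involution `β`. A version of the law of inertia over such algebras shows that the parts `β = 1`
(and `β = -1`) for `X` and for `Y` are isomorphic. These parts are known sums of the motives
`h^i`, `i < d`, and of parts of `h^d` determined by the Lefschetz decomposition; this gives a
relation between the classes of the `h^i` in addition to the one given by their total sum.
-/

open CategoryTheory AlgebraicGeometry

universe u v

namespace Pool.Agent.Results.MP_5c0b30_ag.LowDegreesDetermineMotive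

open Pool.Agent.H914 Pool.Agent.H914.VarClass Pool.Agent.H914.VarClass.Obj Pool.Agent.W492.BB
  Pool.Agent.W550.Corr Pool.Agent.TH133 Pool.Agent.Y111.OR

theorem result {k : Type u} [Field k] {𝒱 : VarClass k} {C : TheoryData.{u, v, 0} 𝒱 ℚ}
    [IsChowProj C] {H : WeilTheoryData.{u, v, 0} C ℚ} [IsWeilProj H] (S : HodgeForm H)
    {X Y : 𝒱.Obj} (hdim : Y.dim = X.dim) [FiniteDimensional ℚ (H.A X)]
    [FiniteDimensional ℚ (H.A Y)] {h : C.A X} {h' : C.A Y}
    (hLX : HardLefschetz H X h) (hLY : HardLefschetz H Y h')
    (hBX : LefschetzConj H X h) (hBY : LefschetzConj H Y h')
    (hRX : S.Riemann X h) (hRY : S.Riemann Y h')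
    {v : ℕ → C.A (X.prod Y)} (hv : IsMukaiVector C X Y v) :
    (∀ e : ℕ, (∀ i : ℕ, 1 ≤ i → i + 3 ≤ X.dim → Even (i + e) → MotiveIsoAt H X Y i) →
      ∀ i : ℕ, Even (i + e) → MotiveIsoAt H X Y i) ∧
    ((∀ i : ℕ, 1 ≤ i → i + 3 ≤ X.dim → MotiveIsoAt H X Y i) →
      MotiveIso H X Y ∧
        (NilpotentKernel H X → NilpotentKernel H Y → ChowMotiveIso C X Y)) :=
  main_final S hdim hLX hLY hBX hBY hRX hRY hv

end Pool.Agent.Results.MP_5c0b30_ag.LowDegreesDetermineMotive
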