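import Pool.Agent.Y111.OR.Geo

/-!
# Orlov's conjecture for relative Fourier-Mukai partners with one-dimensional fibres

`C` is a theory with the formal properties of the Chow groups with rational coefficients of
smooth projective varieties (`IsChowProj`). Let `f : X ⟶ B` and `f' : X' ⟶ B` be morphisms with
`dim X = dim X' = dim B + 1`, such that some divisor class on `X`, and on `X'`, has non-zero
push-forward to `B`. Let `v ∈ CH(X × X')` and `w ∈ CH(X' × X)` be mixed classes which are inverse
to each other as correspondences (`v = ch(E) √td` and `w = ch(E') √td` for the kernel `E` of an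
equivalence and the kernel `E'` of its inverse), and which have the properties `IsRelative` of the
Mukai vectors of complexes supported on the fibre product of `X` and `X'` over `B`. Then the Chow
motives of `X` and `X'` are isomorphic, by an isomorphism compatible with `f^*` and `f'^*`.

The support of the kernel has dimension `dim X + 1` in general, so that this is not covered by
Orlov's theorem on kernels with support of dimension `dim X`. The fibrations may have arbitrary
dimension, and no finite-dimensionality or conjecture is used.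
-/

open CategoryTheory AlgebraicGeometry

universe u v

namespace Pool.Agent.Results.MP_5c0b30_ag.OneDimensionalFibres

open Pool.Agent.H914 Pool.Agent.H914.VarClass Pool.Agent.H914.VarClass.Obj Pool.Agent.W492.BB
  Pool.Agent.W550.Corr Pool.Agent.TH133 Pool.Agent.Y111.OR

theorem result {k : Type u} [Field k] {𝒱 : VarClass k} (C : TheoryData.{u, v, 0} 𝒱 ℚ)
    [IsChowProj C] (X X' B : 𝒱.Obj) (f : X ⟶ B) (f' : X' ⟶ B) (hX : X.dim = B.dim + 1)
    (hX' : X'.dim = B.dim + 1) (ξ : C.A X) (hξ : C.Deg 1 ξ) (hξ1 : C.down f ξ ≠ 0)
    (ξ' : C.A X') (hξ' : C.Deg 1 ξ') (hξ1' : C.down f' ξ' ≠ 0) (v : C.A (X.prod X'))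
    (w : C.A (X'.prod X)) (hv : IsRelative C f f' v) (hw : IsRelative C f' f w)
    (hvw : C.comp v w = dg C X) (hwv : C.comp w v = dg C X') :
    ∃ (Z : C.A (X.prod X')) (Z' : C.A (X'.prod X)), C.Deg X.dim Z ∧ C.Deg X.dim Z' ∧
      C.comp Z Z' = dg C X ∧ C.comp Z' Z = dg C X' ∧ C.comp (C.cograph f) Z = C.cograph f' :=
  main f f' hX hX' hξ hξ1 hξ' hξ1' hv hw hvw hwv

end Pool.Agent.Results.MP_5c0b30_ag.OneDimensionalFibres
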